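import Mathlib
import Pool.Agent.Y214.HB.Stm

/-!
# HB: local obstruction, finiteness of bounded covers, scaling (helper420)
-/

set_option autoImplicit false

namespace Pool.Agent.Y420.HB

open Pool.Agent.Y214.HB Polynomial

/-! ## Local obstruction -/

theorem t_LOC : S_LOC := by
  intro n P p _ a hobs x hx w hw
  obtain ⟨hlc, hno⟩ := hobs
  have hxn : ∀ i, ‖(x i : ℚ_[p])‖ ≤ 1 := by
    intro i
    have h1 : (x i : ℚ_[p]) = ((x i : ℚ_[p]) - (a i : ℚ_[p])) + (a i : ℚ_[p]) := by ring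
    rw [h1]
    exact (Padic.nonarchimedean _ _).trans
      (max_le (hx i).le (Padic.norm_int_le_one (a i)))
  let X' : Fin (n + 1) → ℤ_[p] := fun i => ⟨(x i : ℚ_[p]), hxn i⟩
  let φ : MvPolynomial (Fin (n + 1)) ℤ →+* ℤ_[p] :=
    MvPolynomial.eval₂Hom (Int.castRingHom ℤ_[p]) X'
  have h1 : (algebraMap ℤ_[p] ℚ_[p]).comp φ = (algebraMap ℚ ℚ_[p]).comp (evQ x) := by
    apply MvPolynomial.ringHom_ext
    · intro c
      simp [φ, evQ]
    · intro i
      simp only [φ, evQ, RingHom.comp_apply, MvPolynomial.coe_eval₂Hom, MvPolynomial.eval₂_X]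
      rfl
  have h2 : (PadicInt.toZMod (p := p)).comp φ =
      (Int.castRingHom (ZMod p)).comp (MvPolynomial.eval a) := by
    apply MvPolynomial.ringHom_ext
    · intro c
      simp [φ]
    · intro i
      simp only [φ, RingHom.comp_apply, MvPolynomial.coe_eval₂Hom, MvPolynomial.eval₂_X,
        MvPolynomial.eval_X, eq_intCast]
      have h3 : X' i - (a i : ℤ_[p]) ∈ RingHom.ker (PadicInt.toZMod (p := p)) := by
        rw [PadicInt.ker_toZMod, IsLocalRing.mem_maximalIdeal, PadicInt.mem_nonunits]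
        exact hx i
      rw [RingHom.mem_ker, map_sub, map_intCast, sub_eq_zero] at h3
      exact h3
  have hlc2 : PadicInt.toZMod (p := p) (φ P.leadingCoeff) ≠ 0 := by
    have h3 := RingHom.congr_fun h2 P.leadingCoeff
    rw [RingHom.comp_apply, RingHom.comp_apply] at h3
    rw [h3]
    intro h4
    apply hlc
    exact (ZMod.intCast_zmod_eq_zero_iff_dvd _ _).1 h4
  have hlc3 : φ P.leadingCoeff ≠ 0 := fun h => hlc2 (by rw [h, map_zero])
  have hun : IsUnit (φ P.leadingCoeff) := by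
    by_contra hnu
    have h3 : φ P.leadingCoeff ∈ IsLocalRing.maximalIdeal ℤ_[p] := hnu
    rw [← PadicInt.ker_toZMod] at h3
    exact hlc2 h3
  obtain ⟨u, hu⟩ := hun
  let g : ℤ_[p][X] := P.map φ
  have hgl : g.leadingCoeff = φ P.leadingCoeff :=
    leadingCoeff_map_of_leadingCoeff_ne_zero φ hlc3
  have hmon : (C ((u⁻¹ : (ℤ_[p])ˣ) : ℤ_[p]) * g).Monic := by
    apply monic_C_mul_of_mul_leadingCoeff_eq_one
    rw [hgl, ← hu, Units.inv_mul]
  have hroot : aeval (w : ℚ_[p]) g = 0 := by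
    rw [aeval_def, eval₂_map, h1, ← eval₂_map]
    have h3 : (w : ℚ_[p]) = algebraMap ℚ ℚ_[p] w := by simp
    rw [h3, eval₂_at_apply, hw, map_zero]
  have hroot2 : aeval (w : ℚ_[p]) (C ((u⁻¹ : (ℤ_[p])ˣ) : ℤ_[p]) * g) = 0 := by
    rw [map_mul, hroot, mul_zero]
  obtain ⟨W, hW⟩ := isInteger_of_is_root_of_monic hmon hroot2
  have hgW : g.eval W = 0 := by
    apply IsFractionRing.injective ℤ_[p] ℚ_[p]
    rw [map_zero, ← hroot, ← hW, aeval_algebraMap_apply, coe_aeval_eq_eval]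
  have h5 : (P.map ((Int.castRingHom (ZMod p)).comp (MvPolynomial.eval a))).eval
      (PadicInt.toZMod (p := p) W) = 0 := by
    rw [← h2, ← Polynomial.map_map, eval_map_apply, hgW, map_zero]
  rw [← Polynomial.map_map] at h5
  obtain ⟨w0, hw0⟩ := ZMod.intCast_surjective (PadicInt.toZMod (p := p) W)
  have h6 : (Int.castRingHom (ZMod p)) w0 = PadicInt.toZMod (p := p) W := hw0
  rw [← h6, eval_map_apply] at h5
  exact hno w0 ((ZMod.intCast_zmod_eq_zero_iff_dvd _ _).1 h5)

/-! ## Finiteness -/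

theorem t_FIN : S_FIN := by
  intro n m
  let I : Type := Fin (m + 1) × (Fin (n + 1) → Fin (m + 1))
  let ix : (Fin (n + 1) → Fin (m + 1)) → (Fin (n + 1) →₀ ℕ) := fun u =>
    Finsupp.equivFunOnFinite.symm (fun i => (u i : ℕ))
  let f : (MvPolynomial (Fin (n + 1)) ℤ)[X] → (I → ℤ) := fun P i =>
    (P.coeff i.1).coeff (ix i.2)
  have hfin : (Set.pi Set.univ (fun _ : I => Set.Icc (-(m:ℤ)) m)).Finite :=
    Set.Finite.pi fun _ => Set.finite_Icc _ _
  refine Set.Finite.of_injOn (f := f) (t := Set.pi Set.univ (fun _ : I => Set.Icc (-(m:ℤ)) m))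
    ?_ ?_ hfin
  · rintro P ⟨_, _, hP, _⟩ i _
    exact abs_le.1 (hP i.1 (ix i.2))
  · rintro P ⟨hPd, ⟨D, hDm, hPD⟩, hP, _⟩ Q ⟨hQd, ⟨E, hEm, hQE⟩, hQ, _⟩ hPQ
    ext k u
    by_cases hk : k ≤ m
    · by_cases hu : ∀ i, u i ≤ m
      · have h1 := congrFun hPQ (⟨k, by omega⟩, fun i => ⟨u i, by have := hu i; omega⟩)
        have h2 : ix (fun i => ⟨u i, by have := hu i; omega⟩) = u := by
          ext i
          simp [ix]
        simp only [f] at h1
        rw [h2] at h1
        exact h1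
      · push Not at hu
        obtain ⟨i, hi⟩ := hu
        have hdeg : m < u.degree := lt_of_lt_of_le hi (Finsupp.le_degree i u)
        have h1 : (P.coeff k).coeff u = 0 := (hPD k).coeff_eq_zero (by omega)
        have h2 : (Q.coeff k).coeff u = 0 := (hQE k).coeff_eq_zero (by omega)
        rw [h1, h2]
    · rw [coeff_eq_zero_of_natDegree_lt (by omega), coeff_eq_zero_of_natDegree_lt (by omega)]

end Pool.Agent.Y420.HB
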