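import Mathlib
import Pool.Agent.Y214.HB.Stm

/-!
# HB: approximation of finitely many p-adic numbers by a nonzero rational number (helper420)
-/

set_option autoImplicit false

namespace Pool.Agent.Y420.HB

open Pool.Agent.Y214.HB

theorem appr (p : ℕ) [Fact p.Prime] (y : ℚ_[p]) (ε : ℝ) (hε : 0 < ε) :
    ∃ (s : ℤ) (K : ℕ), ‖(s : ℚ_[p]) / (p : ℚ_[p]) ^ K - y‖ ≤ ε := by
  have hp1 : (1:ℝ) < p := by exact_mod_cast (Fact.out : p.Prime).one_lt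
  have hp0 : (p : ℚ_[p]) ≠ 0 := by
    exact_mod_cast (Fact.out : p.Prime).ne_zero
  obtain ⟨K, hK⟩ := pow_unbounded_of_one_lt ‖y‖ hp1
  have hpK : (p : ℚ_[p]) ^ K ≠ 0 := pow_ne_zero _ hp0
  have hnorm : ‖(p : ℚ_[p]) ^ K‖ = ((p:ℝ) ^ K)⁻¹ := by
    rw [norm_pow, Padic.norm_p, inv_pow]
  have hpKr : (0:ℝ) < (p:ℝ) ^ K := by positivity
  have h1 : ‖(p : ℚ_[p]) ^ K * y‖ ≤ 1 := by
    rw [norm_mul, hnorm, inv_mul_le_iff₀ hpKr, mul_one]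
    exact hK.le
  let Y : ℤ_[p] := ⟨(p : ℚ_[p]) ^ K * y, h1⟩
  obtain ⟨s, hs⟩ := (PadicInt.denseRange_intCast (p := p)).exists_dist_lt Y
    (ε := ε * ((p:ℝ) ^ K)⁻¹) (by positivity)
  refine ⟨s, K, ?_⟩
  have h2 : (s : ℚ_[p]) / (p : ℚ_[p]) ^ K - y =
      ((s : ℚ_[p]) - (p : ℚ_[p]) ^ K * y) / (p : ℚ_[p]) ^ K := by
    field_simp
  rw [h2, norm_div, hnorm, div_inv_eq_mul]
  have h3 : ‖(s : ℚ_[p]) - (p : ℚ_[p]) ^ K * y‖ < ε * ((p:ℝ) ^ K)⁻¹ := by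
    rw [dist_comm, dist_eq_norm] at hs
    have h4 : ‖((s : ℤ_[p]) - Y : ℤ_[p])‖ = ‖(s : ℚ_[p]) - (p : ℚ_[p]) ^ K * y‖ := by
      rw [PadicInt.norm_def]
      congr 1
    rwa [h4] at hs
  have h5 : ‖(s : ℚ_[p]) - (p : ℚ_[p]) ^ K * y‖ * (p:ℝ) ^ K ≤
      ε * ((p:ℝ) ^ K)⁻¹ * (p:ℝ) ^ K := mul_le_mul_of_nonneg_right h3.le hpKr.le
  rwa [mul_assoc, inv_mul_cancel₀ hpKr.ne', mul_one] at h5

theorem norm_other (q p : ℕ) [Fact q.Prime] (hp : p.Prime) (hne : q ≠ p) :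
    ‖(p : ℚ_[q])‖ = 1 := by
  have hle : ‖((p : ℤ) : ℚ_[q])‖ ≤ 1 := Padic.norm_int_le_one _
  have hnl : ¬ ‖((p : ℤ) : ℚ_[q])‖ < 1 := by
    rw [Padic.norm_intCast_lt_one_iff]
    intro h
    have h2 : q ∣ p := by exact_mod_cast h
    exact hne ((Nat.prime_dvd_prime_iff_eq Fact.out hp).1 h2)
  have h3 := le_antisymm hle (not_lt.1 hnl)
  exact_mod_cast h3

/-- a number which is small at all primes of `A` -/
def MM (A : Finset ℕ) (J : ℕ) : ℕ := ∏ q ∈ A.filter Nat.Prime, q ^ J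

theorem MM_ne (A : Finset ℕ) (J : ℕ) : MM A J ≠ 0 := by
  rw [MM, Finset.prod_ne_zero_iff]
  intro q hq
  exact pow_ne_zero _ (Finset.mem_filter.1 hq).2.ne_zero

theorem MM_small (A : Finset ℕ) (ε : ℝ) (hε : 0 < ε) : ∃ J : ℕ,
    ∀ (p : ℕ) [Fact p.Prime], p ∈ A → ‖((MM A J : ℕ) : ℚ_[p])‖ ≤ ε := by
  obtain ⟨J, hJ⟩ := exists_pow_lt_of_lt_one hε (show (1/2 : ℝ) < 1 by norm_num)
  refine ⟨J, ?_⟩
  intro p _ hpA
  have hp : p.Prime := Fact.out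
  have hdvd : p ^ J ∣ MM A J :=
    Finset.dvd_prod_of_mem (fun q => q ^ J) (Finset.mem_filter.2 ⟨hpA, hp⟩)
  obtain ⟨r, hr⟩ := hdvd
  rw [hr]
  push_cast
  rw [norm_mul, norm_pow, Padic.norm_p]
  have h1 : ‖((r : ℤ) : ℚ_[p])‖ ≤ 1 := Padic.norm_int_le_one _
  have h1' : ‖(r : ℚ_[p])‖ ≤ 1 := by exact_mod_cast h1
  have h2 : ((p:ℝ)⁻¹) ^ J ≤ (1/2 : ℝ) ^ J := by
    apply pow_le_pow_left₀ (by positivity)
    rw [one_div]
    apply inv_anti₀ (by norm_num)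
    exact_mod_cast hp.two_le
  calc ((p:ℝ)⁻¹) ^ J * ‖(r : ℚ_[p])‖ ≤ ((p:ℝ)⁻¹) ^ J * 1 :=
        mul_le_mul_of_nonneg_left h1' (by positivity)
    _ ≤ ε := by rw [mul_one]; exact h2.trans hJ.le

theorem MM_unit (A : Finset ℕ) (J : ℕ) (p : ℕ) [Fact p.Prime] (hp : p ∉ A) :
    ‖((MM A J : ℕ) : ℚ_[p])‖ = 1 := by
  rw [MM]
  push_cast
  rw [norm_prod]
  apply Finset.prod_eq_one
  intro q hq
  obtain ⟨hqA, hqp⟩ := Finset.mem_filter.1 hq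
  rw [norm_pow, norm_other p q hqp (fun h => hp (h ▸ hqA)), one_pow]

theorem scl_aux (A : Finset ℕ) : ∀ (c : ∀ (p : ℕ) [Fact p.Prime], ℚ_[p]) (ε : ℝ), 0 < ε →
    ∃ c₀ : ℚ, ∀ (p : ℕ) [Fact p.Prime], p ∈ A → ‖(c₀ : ℚ_[p]) - c p‖ ≤ ε := by
  classical
  induction A using Finset.induction_on with
  | empty =>
    intro c ε hε
    exact ⟨0, fun p _ hp => absurd hp (Finset.notMem_empty p)⟩
  | insert p A hpA ih =>
    intro c ε hε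
    obtain ⟨c₁, hc₁⟩ := ih c ε hε
    by_cases hp : p.Prime
    · have : Fact p.Prime := ⟨hp⟩
      obtain ⟨J, hJ⟩ := MM_small A ε hε
      have hM0 : ((MM A J : ℕ) : ℚ_[p]) ≠ 0 := by exact_mod_cast MM_ne A J
      obtain ⟨s, K, hsK⟩ := appr p ((c p - (c₁ : ℚ_[p])) / ((MM A J : ℕ) : ℚ_[p])) ε hε
      refine ⟨c₁ + (MM A J : ℕ) * ((s : ℚ) / (p : ℚ) ^ K), ?_⟩
      intro q _ hq
      by_cases hqp : q = p
      · subst hqp
        have h1 : ((c₁ + (MM A J : ℕ) * ((s : ℚ) / (q : ℚ) ^ K) : ℚ) : ℚ_[q]) - c q =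
            ((MM A J : ℕ) : ℚ_[q]) * ((s : ℚ_[q]) / (q : ℚ_[q]) ^ K -
              ((c q - (c₁ : ℚ_[q])) / ((MM A J : ℕ) : ℚ_[q]))) := by
          push_cast
          field_simp
          ring
        rw [h1, norm_mul, MM_unit A J q hpA, one_mul]
        exact hsK
      · have hqA : q ∈ A := Finset.mem_of_mem_insert_of_ne hq hqp
        have h1 : ((c₁ + (MM A J : ℕ) * ((s : ℚ) / (p : ℚ) ^ K) : ℚ) : ℚ_[q]) - c q =
            ((c₁ : ℚ_[q]) - c q) +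
              ((MM A J : ℕ) : ℚ_[q]) * ((s : ℚ_[q]) / (p : ℚ_[q]) ^ K) := by
          push_cast
          ring
        rw [h1]
        refine (Padic.nonarchimedean _ _).trans (max_le (hc₁ q hqA) ?_)
        rw [norm_mul, norm_div, norm_pow, norm_other q p hp hqp, one_pow, div_one]
        calc ‖((MM A J : ℕ) : ℚ_[q])‖ * ‖(s : ℚ_[q])‖ ≤ ‖((MM A J : ℕ) : ℚ_[q])‖ * 1 :=
              mul_le_mul_of_nonneg_left (Padic.norm_int_le_one s) (norm_nonneg _)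
          _ ≤ ε := by rw [mul_one]; exact hJ q hqA
    · refine ⟨c₁, ?_⟩
      intro q hq' hq
      have hqp : q ≠ p := fun h => hp (h ▸ hq'.out)
      exact hc₁ q (Finset.mem_of_mem_insert_of_ne hq hqp)

theorem t_SCL : S_SCL := by
  intro A c ε hε
  obtain ⟨c₀, hc₀⟩ := scl_aux A c ε hε
  by_cases h0 : c₀ = 0
  · obtain ⟨J, hJ⟩ := MM_small A ε hε
    refine ⟨(MM A J : ℕ), by exact_mod_cast MM_ne A J, ?_⟩
    intro p _ hp
    have h1 := hc₀ p hp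
    rw [h0, Rat.cast_zero, zero_sub] at h1
    have h2 : (((MM A J : ℕ) : ℚ) : ℚ_[p]) - c p = ((MM A J : ℕ) : ℚ_[p]) + (- c p) := by
      push_cast
      ring
    rw [h2]
    exact (Padic.nonarchimedean _ _).trans (max_le (hJ p hp) h1)
  · exact ⟨c₀, h0, fun p _ hp => hc₀ p hp⟩

end Pool.Agent.Y420.HB
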